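import Pool.Agent.U834.GSP.StmA

/-!
# Project GSP, package SSR (helper165)

A unital algebra of complex matrices closed under the adjoint is a semisimple ring.
-/

set_option autoImplicit false

open scoped Matrix.Norms.L2Operator Matrix ComplexOrder
open Finset

namespace Pool.Agent.U165.GSP.SSR

open Pool.Agent.U834.GSP

/-- a Hermitian nilpotent matrix is zero -/
theorem herm_nilp {m : ℕ} (h : Matrix (Fin m) (Fin m) ℂ) (hh : hᴴ = h) :
    ∀ n : ℕ, h ^ (2 ^ n) = 0 → h = 0 := by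
  intro n
  induction n with
  | zero => intro h0; simpa using h0
  | succ n ih =>
    intro h0
    apply ih
    have h1 : (h ^ (2 ^ n))ᴴ * h ^ (2 ^ n) = 0 := by
      rw [Matrix.conjTranspose_pow, hh, ← pow_add, ← two_mul, ← pow_succ']
      exact h0
    exact Matrix.conjTranspose_mul_self_eq_zero.1 h1

theorem t_SSR : S_SSR := by
  intro m 𝒜
  have hfd : FiniteDimensional ℂ 𝒜 := by
    have : FiniteDimensional ℂ 𝒜.toSubalgebra := inferInstance
    exact this
  have hart : IsArtinianRing 𝒜 := by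
    exact IsArtinianRing.of_finite ℂ 𝒜
  rw [IsArtinianRing.isSemisimpleRing_iff_jacobson]
  obtain ⟨N, hN⟩ : IsNilpotent (Ring.jacobson 𝒜) := IsSemiprimaryRing.isNilpotent
  rw [eq_bot_iff]
  intro a ha
  rw [Submodule.mem_bot]
  have h1 : star a * a ∈ Ring.jacobson 𝒜 := Submodule.smul_mem _ (star a) ha
  have h2 : (star a * a) ^ (2 ^ N) ∈ (Ring.jacobson 𝒜) ^ (2 ^ N) := Ideal.pow_mem_pow h1 _
  have h3 : (star a * a) ^ (2 ^ N) ∈ (Ring.jacobson 𝒜) ^ N :=
    Ideal.pow_le_pow_right Nat.lt_two_pow_self.le h2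
  rw [hN] at h3
  have h4 : (star a * a) ^ (2 ^ N) = 0 := by simpa using h3
  have h5 : (((a : Matrix (Fin m) (Fin m) ℂ))ᴴ * (a : Matrix (Fin m) (Fin m) ℂ)) ^ (2 ^ N) = 0 := by
    have := congrArg (fun x : 𝒜 => (x : Matrix (Fin m) (Fin m) ℂ)) h4
    simpa [Matrix.star_eq_conjTranspose] using this
  have h6 : ((a : Matrix (Fin m) (Fin m) ℂ))ᴴ * (a : Matrix (Fin m) (Fin m) ℂ) = 0 :=
    herm_nilp _ (by rw [Matrix.conjTranspose_mul, Matrix.conjTranspose_conjTranspose]) N h5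
  have h7 : (a : Matrix (Fin m) (Fin m) ℂ) = 0 := Matrix.conjTranspose_mul_self_eq_zero.1 h6
  exact Subtype.ext h7

end Pool.Agent.U165.GSP.SSR
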